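import Mathlib

set_option autoImplicit false

namespace Pool.Agent.H.MP_1e3442_gt

open Filter Set Cardinal

/-- binary words of length n -/
abbrev W (n : ℕ) : Type := Fin n → Bool

/-- slaloms over the words -/
abbrev Sl : Type := ∀ n : ℕ, Finset (W n)

/-- slaloms over pairs of words -/
abbrev SS : Type := ∀ n : ℕ, Finset (W n × W n)

theorem growth {s t : ℝ} (hs : 0 < s) (hst : s < t) :
    ∀ᶠ n : ℕ in atTop, ((n : ℝ) + 3) * s ^ n ≤ t ^ n := by
  have hq : 1 < t / s := (one_lt_div hs).2 hst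
  have h := tendsto_pow_const_div_const_pow_of_one_lt 1 hq
  have h2 := h.eventually (gt_mem_nhds (show (0 : ℝ) < 1 / 2 by norm_num))
  filter_upwards [h2, eventually_ge_atTop 3] with n hn h3
  have hp : 0 < (t / s) ^ n := pow_pos (by linarith) n
  rw [pow_one, div_lt_iff₀ hp] at hn
  have h3' : (3 : ℝ) ≤ n := by exact_mod_cast h3
  have hsn : 0 < s ^ n := pow_pos hs n
  have e : t ^ n = (t / s) ^ n * s ^ n := by
    rw [← mul_pow, div_mul_cancel₀ _ hs.ne']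
  rw [e]
  exact mul_le_mul_of_nonneg_right (by linarith) hsn.le

def Ev (t : ℝ) (B : Sl) : Prop := ∀ᶠ n : ℕ in atTop, ((B n).card : ℝ) ≤ t ^ n

def Sub (E B : Sl) : Prop := ∀ᶠ n : ℕ in atTop, E n ⊆ B n

def Unb (s t : ℝ) (F : Set Sl) : Prop :=
  1 ≤ s ∧ s < t ∧ t < 2 ∧ (∀ E ∈ F, Ev s E) ∧ ∀ B, Ev t B → ∃ E ∈ F, ¬ Sub E B

theorem unb_exists : ∃ F, Unb 1 (3 / 2) F := by
  classical
  refine ⟨range (fun (f : ∀ n, W n) => fun n => ({f n} : Finset (W n))), le_rfl, by norm_num,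
    by norm_num, ?_, ?_⟩
  · rintro E ⟨f, rfl⟩
    exact Eventually.of_forall fun n => by simp
  · intro B hB
    have h : ∀ n, ∃ x : W n, (1 ≤ n ∧ ((B n).card : ℝ) ≤ (3 / 2) ^ n) → x ∉ B n := by
      intro n
      by_cases hn : 1 ≤ n ∧ ((B n).card : ℝ) ≤ (3 / 2) ^ n
      · have hlt : ((B n).card : ℝ) < (2 : ℝ) ^ n :=
          lt_of_le_of_lt hn.2 (pow_lt_pow_left₀ (by norm_num) (by norm_num) (by omega))
        have hlt' : (B n).card < (Finset.univ : Finset (W n)).card := by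
          rw [Finset.card_univ, Fintype.card_fun, Fintype.card_bool, Fintype.card_fin]
          exact_mod_cast hlt
        obtain ⟨x, -, hx⟩ := Finset.exists_mem_notMem_of_card_lt_card hlt'
        exact ⟨x, fun _ => hx⟩
      · exact ⟨fun _ => true, fun h => absurd h hn⟩
    choose f hf using h
    refine ⟨_, ⟨f, rfl⟩, fun hs => ?_⟩
    obtain ⟨n, h1, h2, h3⟩ := (hB.and (hs.and (eventually_ge_atTop 1))).exists
    exact hf n ⟨h3, h1⟩ (h2 (Finset.mem_singleton_self _))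

/-- The window lemma. -/
theorem window : ∃ (a b : ℝ) (F : Set Sl) (r : F → F → Prop), 1 ≤ a ∧ a < b ∧ WellFounded r ∧
    (∀ B, Ev b B → ∃ γ : F, ¬ Sub γ.1 B) ∧
    (∀ γ : F, ∀ c, a < c → c < b → ∃ G : Sl, (∀ n, ((G n).card : ℝ) ≤ c ^ n) ∧
      ∀ δ : F, ¬ r γ δ → Sub δ.1 G) := by
  classical
  obtain ⟨F0, hF0⟩ := unb_exists
  obtain ⟨κ, ⟨a, b, F, hF, rfl⟩, hmin⟩ := (wellFounded_lt (α := Cardinal.{0})).has_min
    {c | ∃ s t F, Unb s t F ∧ #F = c} ⟨_, 1, 3 / 2, F0, hF0, rfl⟩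
  obtain ⟨r, wo, hr⟩ := Cardinal.exists_ord_eq F
  obtain ⟨ha, hab, hb, hE, hB⟩ := hF
  refine ⟨a, b, F, r, ha, hab, wo.wf, fun B h => ?_, fun γ c hac hcb => ?_⟩
  · obtain ⟨E, hE, h⟩ := hB B h
    exact ⟨⟨E, hE⟩, h⟩
  · set F' : Set Sl := Subtype.val '' {δ : F | r δ γ} with hF'
    have hlt : #F' < #F := by
      refine lt_of_le_of_lt Cardinal.mk_image_le ?_
      have := Cardinal.card_typein_lt γ hr
      rw [Ordinal.card_typein] at this
      exact this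
    have hn : ¬ Unb a ((a + c) / 2) F' := fun h => hmin _ ⟨_, _, _, h, rfl⟩ hlt
    have : ∃ G, Ev ((a + c) / 2) G ∧ ∀ E ∈ F', Sub E G := by
      by_contra hc
      push Not at hc
      refine hn ⟨ha, by linarith, by linarith, ?_, hc⟩
      rintro E ⟨δ, -, rfl⟩
      exact hE _ δ.2
    obtain ⟨G, hG, hG'⟩ := this
    have hev : ∀ᶠ n : ℕ in atTop, (((G n ∪ γ.1 n).card : ℕ) : ℝ) ≤ c ^ n := by
      filter_upwards [hG, hE _ γ.2, growth (s := (a + c) / 2) (t := c) (by linarith) (by linarith)]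
        with n h1 h2 h3
      have h4 : a ^ n ≤ ((a + c) / 2) ^ n := pow_le_pow_left₀ (by linarith) (by linarith) n
      have h5 : (((G n ∪ γ.1 n).card : ℕ) : ℝ) ≤ (G n).card + (γ.1 n).card := by
        exact_mod_cast Finset.card_union_le _ _
      have h6 : 0 ≤ ((a + c) / 2) ^ n := pow_nonneg (by linarith) n
      have h7 : (0 : ℝ) ≤ n := Nat.cast_nonneg n
      nlinarith
    refine ⟨fun n => if (((G n ∪ γ.1 n).card : ℕ) : ℝ) ≤ c ^ n then G n ∪ γ.1 n else ∅,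
      fun n => ?_, fun δ hδ => ?_⟩
    · beta_reduce
      split_ifs with h
      · exact h
      · simpa using pow_nonneg (by linarith) n
    · rcases trichotomous_of r δ γ with h | h | h
      · filter_upwards [hev, hG' δ.1 ⟨δ, h, rfl⟩] with n h1 h2
        rw [if_pos h1]
        exact h2.trans Finset.subset_union_left
      · subst h
        filter_upwards [hev] with n h1
        rw [if_pos h1]
        exact Finset.subset_union_right
      · exact absurd h hδ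

/-- A task: a point together with the data of a column converging to it. -/
structure Task where
  A : SS
  r : ℝ
  D : ℕ → SS
  ρ : ℕ → ℝ
  N : ℕ → ℕ

structure Valid (a b : ℝ) (τ : Task) : Prop where
  ar : a < τ.r
  anti : Antitone τ.ρ
  rle : ∀ k, τ.r ≤ τ.ρ k
  lim : ∀ t, τ.r < t → ∃ k, τ.ρ k < t
  ltb : τ.ρ 0 < b
  Danti : ∀ k m, k ≤ m → ∀ n, τ.D m n ⊆ τ.D k n
  AD : ∀ k n, τ.A n ⊆ τ.D k n
  Nmono : Monotone τ.N
  Nge : ∀ k, k ≤ τ.N k
  costA : ∀ n, ((τ.A n).card : ℝ) ≤ τ.r ^ n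
  costD : ∀ k n, τ.N k ≤ n → ((τ.D k n).card : ℝ) + τ.r ^ n ≤ τ.ρ k ^ n

theorem le_c_pi {β : ℕ → Type} (h : ∀ n, #(β n) ≤ 𝔠) : #(∀ n, β n) ≤ 𝔠 := by
  rw [Cardinal.mk_pi]
  refine (Cardinal.prod_le_prod _ (fun _ => 𝔠) h).trans ?_
  rw [Cardinal.prod_const']
  simp

theorem le_c_prod {β γ : Type} (h : #β ≤ 𝔠) (h' : #γ ≤ 𝔠) : #(β × γ) ≤ 𝔠 := by
  rw [Cardinal.mk_prod, Cardinal.lift_id, Cardinal.lift_id]
  exact (mul_le_mul' h h').trans Cardinal.continuum_mul_self.le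

theorem code_exists : ∃ j : Task → (ℕ → Bool), Function.Injective j := by
  have hS : #SS ≤ 𝔠 := le_c_pi fun n => Cardinal.mk_le_aleph0.trans Cardinal.aleph0_le_continuum
  have hR : #ℝ ≤ 𝔠 := Cardinal.mk_real.le
  have hN : #ℕ ≤ 𝔠 := Cardinal.mk_le_aleph0.trans Cardinal.aleph0_le_continuum
  have h1 : #(SS × ℝ × (ℕ → SS) × (ℕ → ℝ) × (ℕ → ℕ)) ≤ 𝔠 :=
    le_c_prod hS (le_c_prod hR (le_c_prod (le_c_pi fun _ => hS)
      (le_c_prod (le_c_pi fun _ => hR) (le_c_pi fun _ => hN))))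
  have h2 : #Task ≤ #(SS × ℝ × (ℕ → SS) × (ℕ → ℝ) × (ℕ → ℕ)) := by
    refine Cardinal.mk_le_of_injective (f := fun τ : Task => (τ.A, τ.r, τ.D, τ.ρ, τ.N)) ?_
    rintro ⟨_, _, _, _, _⟩ ⟨_, _, _, _, _⟩ h
    simp only [Prod.mk.injEq] at h
    obtain ⟨rfl, rfl, rfl, rfl, rfl⟩ := h
    rfl
  have h3 : #Task ≤ #(ℕ → Bool) := by
    refine (h2.trans h1).trans ?_
    rw [← Cardinal.power_def, Cardinal.mk_bool, Cardinal.mk_nat, Cardinal.two_power_aleph0]
  obtain ⟨f⟩ := (Cardinal.le_def _ _).1 h3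
  exact ⟨f, f.injective⟩

/-- tags with a well-founded rank -/
structure Setup where
  a : ℝ
  b : ℝ
  ha : 1 ≤ a
  hab : a < b
  T : Task → SS
  lt : Task → Task → Prop
  wf : WellFounded lt
  cost : ∀ τ, Valid a b τ → ∀ n, ((T τ n).card : ℝ) ≤ τ.r ^ n
  key : ∀ τ τ', Valid a b τ → Valid a b τ' → τ ≠ τ' →
    (∀ᶠ n : ℕ in atTop, T τ' n ⊆ τ.D 0 n ∪ T τ n) → lt τ' τ

theorem setup_exists : Nonempty Setup := by
  classical
  obtain ⟨a, b, F, r, ha, hab, wf, h1, h2⟩ := window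
  obtain ⟨j, hj⟩ := code_exists
  obtain ⟨γ0, -⟩ := h1 (fun _ => ∅) (Eventually.of_forall fun n => by
    simpa using pow_nonneg (by linarith) n)
  have hγ : ∀ τ : Task, ∃ γ : F, Valid a b τ →
      ¬ Sub γ.1 (fun n => (τ.D 0 n).image Prod.fst) := by
    intro τ
    by_cases hτ : Valid a b τ
    · obtain ⟨γ, hγ⟩ := h1 (fun n => (τ.D 0 n).image Prod.fst) (by
        filter_upwards [eventually_ge_atTop (τ.N 0)] with n hn
        have e1 := hτ.costD 0 n hn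
        have e2 : (((τ.D 0 n).image Prod.fst).card : ℝ) ≤ (τ.D 0 n).card := by
          exact_mod_cast Finset.card_image_le
        have e0 : 0 ≤ τ.r := by linarith [hτ.ar]
        have e3 : 0 ≤ τ.r ^ n := pow_nonneg e0 n
        have e4 : τ.ρ 0 ^ n ≤ b ^ n := pow_le_pow_left₀ (e0.trans (hτ.rle 0)) hτ.ltb.le n
        linarith)
      exact ⟨γ, fun _ => hγ⟩
    · exact ⟨γ0, fun h => absurd h hτ⟩
  choose γ hγ using hγ
  have hG : ∀ τ : Task, ∃ G : Sl, Valid a b τ → (∀ n, ((G n).card : ℝ) ≤ τ.r ^ n) ∧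
      ∀ δ : F, ¬ r (γ τ) δ → Sub δ.1 G := by
    intro τ
    by_cases hτ : Valid a b τ
    · obtain ⟨G, hG⟩ := h2 (γ τ) τ.r hτ.ar (lt_of_le_of_lt (hτ.rle 0) hτ.ltb)
      exact ⟨G, fun _ => hG⟩
    · exact ⟨fun _ => ∅, fun h => absurd h hτ⟩
  choose G hG using hG
  refine ⟨⟨a, b, ha, hab, fun τ n => (G τ n).image (fun g => (g, fun i : Fin n => j τ i)),
    fun τ' τ => r (γ τ') (γ τ), InvImage.wf γ wf, fun τ hτ n => ?_, fun τ τ' hτ hτ' hne hev => ?_⟩⟩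
  · refine le_trans ?_ ((hG τ hτ).1 n)
    exact_mod_cast Finset.card_image_le
  · by_contra hc
    have hs := (hG τ' hτ').2 (γ τ) hc
    obtain ⟨i, hi⟩ := Function.ne_iff.1 (fun h => hne (hj h))
    refine hγ τ hτ ?_
    filter_upwards [hs, hev, eventually_gt_atTop i] with n e1 e2 e3
    intro g hg
    have e4 := e2 (Finset.mem_image_of_mem _ (e1 hg))
    rcases Finset.mem_union.1 e4 with e5 | e5
    · exact Finset.mem_image.2 ⟨_, e5, rfl⟩
    · obtain ⟨g', -, e6⟩ := Finset.mem_image.1 e5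
      exact absurd (congrFun (congrArg Prod.snd e6) ⟨i, e3⟩) hi

end Pool.Agent.H.MP_1e3442_gt
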