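import Mathlib
import Pool.Agent.H.MP_1e3442_gt.A

set_option autoImplicit false

namespace Pool.Agent.H.MP_1e3442_gt

open Filter Set

variable (S : Setup)

/-- the k-th point of the tagged column of a task -/
def col (τ : Task) (k : ℕ) : SS × ℝ :=
  (fun n => if n < τ.N k then τ.A n else τ.D k n ∪ S.T τ n, τ.ρ k)

inductive InP : SS × ℝ → Prop
  | seed (τ : Task) (h : Valid S.a S.b τ) : InP (col S τ 0)
  | step (τ : Task) (h : Valid S.a S.b τ) (hp : InP (τ.A, τ.r)) (k : ℕ) : InP (col S τ k)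

def Le (p q : SS × ℝ) : Prop := (∀ n, q.1 n ⊆ p.1 n) ∧ q.2 ≤ p.2

def Good (p : SS × ℝ) : Prop := S.a < p.2 ∧ p.2 < S.b ∧ ∀ n, ((p.1 n).card : ℝ) ≤ p.2 ^ n

/-- the poset -/
def P : Type := {p : SS × ℝ // InP S p}

theorem Le.trans' {p q s : SS × ℝ} (h : Le p q) (h' : Le q s) : Le p s :=
  ⟨fun n => (h'.1 n).trans (h.1 n), h'.2.trans h.2⟩

instance : PartialOrder (P S) where
  le p q := Le p.1 q.1
  le_refl p := ⟨fun _ => Finset.Subset.refl _, le_rfl⟩
  le_trans _ _ _ h h' := h.trans' h'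
  le_antisymm p q h h' := Subtype.ext (Prod.ext (funext fun n =>
    Finset.Subset.antisymm (h'.1 n) (h.1 n)) (le_antisymm h'.2 h.2))

variable {S}

theorem le_def {p q : P S} : p ≤ q ↔ Le p.1 q.1 := Iff.rfl

theorem col_good {τ : Task} (h : Valid S.a S.b τ) (k : ℕ) : Good S (col S τ k) := by
  refine ⟨lt_of_lt_of_le h.ar (h.rle k), lt_of_le_of_lt (h.anti (Nat.zero_le k)) h.ltb, fun n => ?_⟩
  have e0 : 0 ≤ τ.r := by linarith [h.ar, S.ha]
  simp only [col]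
  split_ifs with hn
  · exact (h.costA n).trans (pow_le_pow_left₀ e0 (h.rle k) n)
  · have e1 := h.costD k n (by omega)
    have e2 := S.cost τ h n
    have e3 : (((τ.D k n ∪ S.T τ n).card : ℕ) : ℝ) ≤ (τ.D k n).card + (S.T τ n).card := by
      exact_mod_cast Finset.card_union_le _ _
    linarith

theorem inv {p : SS × ℝ} (h : InP S p) :
    ∃ τ k, Valid S.a S.b τ ∧ p = col S τ k ∧ (k = 0 ∨ InP S (τ.A, τ.r)) := by
  cases h with
  | seed τ h => exact ⟨τ, 0, h, rfl, Or.inl rfl⟩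
  | step τ h hp k => exact ⟨τ, k, h, rfl, Or.inr hp⟩

theorem good (p : P S) : Good S p.1 := by
  obtain ⟨τ, k, h, e, -⟩ := inv p.2
  rw [e]
  exact col_good h k

theorem col_mono {τ : Task} (h : Valid S.a S.b τ) {k m : ℕ} (hkm : k ≤ m) :
    Le (col S τ k) (col S τ m) := by
  refine ⟨fun n => ?_, h.anti hkm⟩
  have := h.Nmono hkm
  simp only [col]
  split_ifs with h1 h2 h2
  · exact Finset.Subset.refl _
  · exact (h.AD k n).trans Finset.subset_union_left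
  · omega
  · exact Finset.union_subset_union (h.Danti k m hkm n) (Finset.Subset.refl _)

theorem col_le {τ : Task} (h : Valid S.a S.b τ) (k : ℕ) : Le (col S τ k) (τ.A, τ.r) := by
  refine ⟨fun n => ?_, h.rle k⟩
  simp only [col]
  split_ifs with h1
  · exact Finset.Subset.refl _
  · exact (h.AD k n).trans Finset.subset_union_left

theorem col_low {τ : Task} {k n : ℕ} (hn : n < τ.N k) : (col S τ k).1 n = τ.A n := by
  simp only [col, if_pos hn]

theorem col_key {τ τ' : Task} (h : Valid S.a S.b τ) (h' : Valid S.a S.b τ') {k m : ℕ}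
    (hle : Le (col S τ k) (col S τ' m)) (hne : τ ≠ τ') : S.lt τ' τ := by
  refine S.key τ τ' h h' hne ?_
  filter_upwards [eventually_ge_atTop (τ.N k), eventually_ge_atTop (τ'.N m)] with n h1 h2
  have := hle.1 n
  simp only [col, if_neg (not_lt.2 h1), if_neg (not_lt.2 h2)] at this
  exact (Finset.subset_union_right.trans this).trans
    (Finset.union_subset_union (h.Danti 0 k (Nat.zero_le k) n) (Finset.Subset.refl _))

theorem col_inj {τ τ' : Task} (h : Valid S.a S.b τ) (h' : Valid S.a S.b τ') {k m : ℕ}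
    (e : col S τ k = col S τ' m) : τ = τ' := by
  by_contra hne
  have e1 : Le (col S τ k) (col S τ' m) := by
    rw [e]; exact ⟨fun _ => Finset.Subset.refl _, le_rfl⟩
  have e2 : Le (col S τ' m) (col S τ k) := by
    rw [e]; exact ⟨fun _ => Finset.Subset.refl _, le_rfl⟩
  exact S.wf.asymmetric _ _ (col_key h h' e1 hne) (col_key h' h e2 (Ne.symm hne))

/-- basic open sets -/
def O (S : Setup) (A : SS) (N : ℕ) (t : ℝ) : Set (P S) :=
  {p | (∀ n < N, p.1.1 n ⊆ A n) ∧ p.1.2 < t}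

def Approx (D : Set (P S)) (s : P S) : Prop :=
  ∀ N t, s.1.2 < t → ∃ d ∈ D, d ∈ O S s.1.1 N t

theorem isLUB_of {D : Set (P S)} {s : P S} (h1 : ∀ d ∈ D, d ≤ s) (h2 : Approx D s) :
    IsLUB D s := by
  refine ⟨h1, fun u hu => ⟨fun n => ?_, ?_⟩⟩
  · obtain ⟨d, hd, hd'⟩ := h2 (n + 1) (s.1.2 + 1) (by linarith)
    exact ((hu hd).1 n).trans (hd'.1 n (by omega))
  · refine le_of_forall_gt_imp_ge_of_dense fun t ht => ?_
    obtain ⟨d, hd, hd'⟩ := h2 0 t ht
    exact (hu hd).2.trans hd'.2.le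

theorem approx_self {D : Set (P S)} {s : P S} (h : s ∈ D) : Approx D s :=
  fun _ _ ht => ⟨s, h, fun _ _ => Finset.Subset.refl _, ht⟩

theorem dir {D : Set (P S)} (hne : D.Nonempty) (hD : DirectedOn (· ≤ ·) D) :
    ∃ s, (∀ d ∈ D, d ≤ s) ∧ Approx D s := by
  obtain ⟨τ, ⟨hτ, p, hp, k, hk⟩, hmin⟩ := S.wf.has_min
    {τ | Valid S.a S.b τ ∧ ∃ p ∈ D, ∃ k, p.1 = col S τ k} (by
      obtain ⟨p, hp⟩ := hne
      obtain ⟨τ, k, h, e, -⟩ := inv p.2
      exact ⟨τ, h, p, hp, k, e⟩)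
  have cof : ∀ d ∈ D, ∃ z ∈ D, d ≤ z ∧ ∃ m, z.1 = col S τ m ∧ (m = 0 ∨ InP S (τ.A, τ.r)) := by
    intro d hd
    obtain ⟨z, hz, h1, h2⟩ := hD d hd p hp
    obtain ⟨τ', m, h', e, hm⟩ := inv z.2
    have : τ = τ' := by
      by_contra hc
      refine hmin τ' ⟨h', z, hz, m, e⟩ (col_key hτ h' (k := k) (m := m) ?_ hc)
      rw [← hk, ← e]
      exact h2
    subst this
    exact ⟨z, hz, h1, m, e, hm⟩
  by_cases hb : ∃ M, ∀ z ∈ D, ∀ m, z.1 = col S τ m → (m = 0 ∨ InP S (τ.A, τ.r)) → m ≤ M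
  · classical
    obtain ⟨M, hM⟩ := hb
    have hex : ∃ m, m ≤ M ∧ ∃ z ∈ D, z.1 = col S τ m ∧ (m = 0 ∨ InP S (τ.A, τ.r)) := by
      obtain ⟨z, hz, -, m, e, hm⟩ := cof p hp
      exact ⟨m, hM z hz m e hm, z, hz, e, hm⟩
    obtain ⟨m0, hm0, hm1⟩ := hex
    obtain ⟨s, hs, es, -⟩ := Nat.findGreatest_spec
      (P := fun m => ∃ z ∈ D, z.1 = col S τ m ∧ (m = 0 ∨ InP S (τ.A, τ.r))) hm0 hm1
    refine ⟨s, fun d hd => ?_, approx_self hs⟩
    obtain ⟨z, hz, h1, m, e, hm⟩ := cof d hd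
    refine h1.trans ?_
    rw [le_def, e, es]
    exact col_mono hτ (Nat.le_findGreatest (hM z hz m e hm) ⟨z, hz, e, hm⟩)
  · push Not at hb
    have hpar : InP S (τ.A, τ.r) := by
      obtain ⟨z, -, m, -, h1, h2⟩ := hb 0
      exact h1.resolve_left (by omega)
    refine ⟨⟨_, hpar⟩, fun d hd => ?_, fun N t ht => ?_⟩
    · obtain ⟨z, hz, h1, m, e, -⟩ := cof d hd
      refine h1.trans ?_
      rw [le_def, e]
      exact col_le hτ m
    · obtain ⟨k', hk'⟩ := hτ.lim t ht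
      obtain ⟨z, hz, m, e, -, h2⟩ := hb (max k' N)
      have h3 := le_max_left k' N
      have h4 := le_max_right k' N
      refine ⟨z, hz, fun n hn => ?_, ?_⟩
      · have := hτ.Nge m
        rw [e, col_low (by omega)]
      · rw [e]
        exact lt_of_le_of_lt (hτ.anti (by omega : k' ≤ m)) hk'

theorem approx_of_isLUB {D : Set (P S)} (hne : D.Nonempty) (hD : DirectedOn (· ≤ ·) D) {s : P S}
    (hs : IsLUB D s) : Approx D s := by
  obtain ⟨s', h1, h2⟩ := dir hne hD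
  rw [hs.unique (isLUB_of h1 h2)]
  exact h2

theorem build {x : SS × ℝ} (hx : Good S x) (N0 : ℕ) {t : ℝ} (ht : x.2 < t) :
    ∃ (ρ : ℕ → ℝ) (N : ℕ → ℕ), (∀ k, x.2 < ρ k) ∧ ρ 0 < t ∧ N0 ≤ N 0 ∧
      ∀ e : ℕ → SS × ℝ, (∀ k, Good S (e k) ∧ (e k).2 < ρ (k + 1) ∧ ∀ n < N k, (e k).1 n ⊆ x.1 n) →
        ∃ τ, Valid S.a S.b τ ∧ τ.A = x.1 ∧ τ.r = x.2 ∧ τ.ρ = ρ ∧ τ.N = N ∧
          ∀ k, Le (col S τ k) (e k) := by
  classical
  obtain ⟨hx1, hx2, hx3⟩ := hx
  have ha := S.ha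
  obtain ⟨ε, hε, hε1, hε2⟩ : ∃ ε : ℝ, 0 < ε ∧ x.2 + ε < t ∧ x.2 + ε < S.b := by
    refine ⟨(min t S.b - x.2) / 2, ?_, ?_, ?_⟩
    · have := lt_min ht hx2
      linarith
    · have := lt_min ht hx2
      have := min_le_left t S.b
      linarith
    · have := lt_min ht hx2
      have := min_le_right t S.b
      linarith
  set ρ : ℕ → ℝ := fun k => x.2 + ε / ((k : ℝ) + 1) with hρ
  have hρ1 : ∀ k, x.2 < ρ k := fun k => by
    have : 0 < ε / ((k : ℝ) + 1) := by positivity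
    simp only [hρ]; linarith
  have hρ2 : StrictAnti ρ := by
    intro k m hkm
    have h1 : (k : ℝ) < m := by exact_mod_cast hkm
    have : ε / ((m : ℝ) + 1) < ε / ((k : ℝ) + 1) :=
      div_lt_div_of_pos_left hε (by positivity) (by linarith)
    simp only [hρ]; linarith
  have hρ0 : ρ 0 = x.2 + ε := by simp [hρ]
  have hρ3 : ∀ u, x.2 < u → ∃ k, ρ k < u := by
    intro u hu
    obtain ⟨k, hk⟩ := exists_nat_gt (ε / (u - x.2))
    refine ⟨k, ?_⟩
    have h1 : 0 < u - x.2 := by linarith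
    rw [div_lt_iff₀ h1] at hk
    have : ε / ((k : ℝ) + 1) < u - x.2 := by
      rw [div_lt_iff₀ (by positivity)]
      nlinarith
    simp only [hρ]; linarith
  have hM : ∀ k, ∃ M : ℕ, ∀ n ≥ M, ((n : ℝ) + 3) * ρ (k + 1) ^ n ≤ ρ k ^ n := fun k =>
    eventually_atTop.1 (growth (by linarith [hρ1 (k + 1)]) (hρ2 (Nat.lt_succ_self k)))
  choose M hM using hM
  set N : ℕ → ℕ := fun k => N0 + k + ∑ i ∈ Finset.range (k + 1), M i with hN
  have hN1 : Monotone N := by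
    intro k m hkm
    have : ∑ i ∈ Finset.range (k + 1), M i ≤ ∑ i ∈ Finset.range (m + 1), M i :=
      Finset.sum_le_sum_of_subset (Finset.range_subset_range.2 (by omega))
    simp only [hN]; omega
  have hN2 : ∀ k, k ≤ N k := fun k => by simp only [hN]; omega
  have hN3 : ∀ k, M k ≤ N k := fun k => by
    have : M k ≤ ∑ i ∈ Finset.range (k + 1), M i :=
      Finset.single_le_sum (f := M) (fun _ _ => Nat.zero_le _) (Finset.self_mem_range_succ k)
    simp only [hN]; omega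
  refine ⟨ρ, N, hρ1, by linarith, by simp only [hN]; omega, fun e he => ?_⟩
  refine ⟨⟨x.1, x.2, fun k n => x.1 n ∪
      ((Finset.range (n + 1)).filter (fun i => k ≤ i)).biUnion (fun i => (e i).1 n), ρ, N⟩,
    ⟨hx1, hρ2.antitone, fun k => (hρ1 k).le, hρ3, by show ρ 0 < S.b; linarith, ?_,
      fun _ _ => Finset.subset_union_left, hN1, hN2, hx3, ?_⟩, rfl, rfl, rfl, rfl, fun k => ?_⟩
  · intro k m hkm n
    refine Finset.union_subset_union (Finset.Subset.refl _)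
      (Finset.biUnion_subset_biUnion_of_subset_left _ ?_)
    intro i hi
    rw [Finset.mem_filter] at hi ⊢
    exact ⟨hi.1, hkm.trans hi.2⟩
  · intro k n hn
    show (((x.1 n ∪ ((Finset.range (n + 1)).filter (fun i => k ≤ i)).biUnion
      (fun i => (e i).1 n)).card : ℕ) : ℝ) + x.2 ^ n ≤ ρ k ^ n
    have e1 := hM k n ((hN3 k).trans hn)
    have e2 : (((x.1 n ∪ ((Finset.range (n + 1)).filter (fun i => k ≤ i)).biUnion
        (fun i => (e i).1 n)).card : ℕ) : ℝ) ≤ (x.1 n).card +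
        ∑ i ∈ (Finset.range (n + 1)).filter (fun i => k ≤ i), (((e i).1 n).card : ℝ) := by
      exact_mod_cast (Finset.card_union_le _ _).trans (Nat.add_le_add_left Finset.card_biUnion_le _)
    have e3 : ∑ i ∈ (Finset.range (n + 1)).filter (fun i => k ≤ i), (((e i).1 n).card : ℝ) ≤
        ((Finset.range (n + 1)).filter (fun i => k ≤ i)).card • ρ (k + 1) ^ n := by
      refine Finset.sum_le_card_nsmul _ _ _ fun i hi => ?_
      rw [Finset.mem_filter] at hi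
      obtain ⟨⟨g1, -, g3⟩, g4, -⟩ := he i
      refine (g3 n).trans (pow_le_pow_left₀ (by linarith) ?_ n)
      exact g4.le.trans (hρ2.antitone (by omega))
    have e4 : (((Finset.range (n + 1)).filter (fun i => k ≤ i)).card : ℝ) ≤ n + 1 := by
      exact_mod_cast (Finset.card_filter_le _ _).trans (Finset.card_range _).le
    have e5 : x.2 ^ n ≤ ρ (k + 1) ^ n := pow_le_pow_left₀ (by linarith) (hρ1 _).le n
    have e6 : 0 ≤ ρ (k + 1) ^ n := pow_nonneg (by linarith [hρ1 (k + 1)]) n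
    have e7 := hx3 n
    rw [nsmul_eq_mul] at e3
    have e8 := mul_le_mul_of_nonneg_right e4 e6
    linarith
  · obtain ⟨-, g4, g5⟩ := he k
    refine ⟨fun n => ?_, g4.le.trans (hρ2.antitone (Nat.le_succ k))⟩
    simp only [col]
    split_ifs with hn
    · exact g5 n hn
    · refine Finset.Subset.trans ?_ Finset.subset_union_left
      refine Finset.Subset.trans ?_ Finset.subset_union_right
      refine Finset.subset_biUnion_of_mem (fun i => (e i).1 n) ?_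
      have := hN2 k
      rw [Finset.mem_filter, Finset.mem_range]
      exact ⟨by omega, le_rfl⟩

/-- density -/
theorem den {x : SS × ℝ} (hx : Good S x) (N0 : ℕ) {t : ℝ} (ht : x.2 < t) :
    ∃ p : P S, Le p.1 x ∧ p ∈ O S x.1 N0 t := by
  obtain ⟨ρ, N, h1, h2, h3, h4⟩ := build hx N0 ht
  obtain ⟨τ, hτ, e1, e2, e3, e4, h5⟩ := h4 (fun _ => x)
    (fun k => ⟨hx, h1 _, fun _ _ => Finset.Subset.refl _⟩)
  refine ⟨⟨_, InP.seed τ hτ⟩, h5 0, fun n hn => ?_, ?_⟩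
  · show (col S τ 0).1 n ⊆ _
    rw [col_low (by rw [e4]; omega), e1]
  · show τ.ρ 0 < t
    rw [e3]; exact h2

instance : TopologicalSpace (P S) := Topology.scott (P S) univ

instance : Topology.IsScott (P S) univ := ⟨rfl⟩

theorem isOpen_O (A : SS) (N : ℕ) (t : ℝ) : IsOpen (O S A N t) := by
  rw [Topology.IsScott.isOpen_iff_isUpperSet_and_dirSupInaccOn (D := univ)]
  refine ⟨fun p q hpq hp => ⟨fun n hn => (hpq.1 n).trans (hp.1 n hn), lt_of_le_of_lt hpq.2 hp.2⟩,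
    fun D _ hne hD s hs hsO => ?_⟩
  obtain ⟨d, hd, hd'⟩ := approx_of_isLUB hne hD hs N t hsO.2
  exact ⟨d, hd, fun n hn => (hd'.1 n hn).trans (hsO.1 n hn), hd'.2⟩

/-- every Scott open set is a union of basic open sets -/
theorem nb {U : Set (P S)} (hU : IsOpen U) {x : P S} (hx : x ∈ U) :
    ∃ N t, x.1.2 < t ∧ O S x.1.1 N t ⊆ U := by
  by_contra hc
  push Not at hc
  rw [Topology.IsScott.isOpen_iff_isUpperSet_and_dirSupInaccOn (D := univ)] at hU
  obtain ⟨ρ, N, h1, -, -, h4⟩ := build (good x) 0 (lt_add_one x.1.2)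
  have : ∀ k, ∃ e : P S, e ∈ O S x.1.1 (N k) (ρ (k + 1)) ∧ e ∉ U := fun k =>
    not_subset.1 (hc (N k) (ρ (k + 1)) (h1 _))
  choose e he he' using this
  obtain ⟨τ, hτ, e1, e2, -, -, h5⟩ := h4 (fun k => (e k).1)
    (fun k => ⟨good _, (he k).2, (he k).1⟩)
  have ex : x.1 = (τ.A, τ.r) := Prod.ext e1.symm e2.symm
  have hpar : InP S (τ.A, τ.r) := ex ▸ x.2
  let d : ℕ → P S := fun k => ⟨col S τ k, InP.step τ hτ hpar k⟩
  have hmono : Monotone d := fun k m hkm => col_mono hτ hkm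
  have hlub : IsLUB (range d) x := by
    refine isLUB_of ?_ fun N' t ht => ?_
    · rintro _ ⟨k, rfl⟩
      rw [le_def, ex]
      exact col_le hτ k
    · obtain ⟨k, hk⟩ := hτ.lim t (by rw [e2]; exact ht)
      have h3 := le_max_left k N'
      have h4 := le_max_right k N'
      refine ⟨d (max k N'), mem_range_self _, fun n hn => ?_, ?_⟩
      · show (col S τ (max k N')).1 n ⊆ _
        have := hτ.Nge (max k N')
        rw [col_low (by omega), e1]
      · exact lt_of_le_of_lt (hτ.anti h3) hk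
  obtain ⟨_, ⟨k, rfl⟩, hk⟩ := hU.2 (mem_univ _) (range_nonempty d)
    (directedOn_range.2 hmono.directed_le) hlub hx
  exact he' k (hU.1 (show d k ≤ e k from h5 k) hk)

theorem dcpo (D : Set (P S)) (hne : D.Nonempty) (hD : DirectedOn (· ≤ ·) D) : ∃ s, IsLUB D s := by
  obtain ⟨s, h1, h2⟩ := dir hne hD
  exact ⟨s, isLUB_of h1 h2⟩

theorem meet_cont (x : P S) (D : Set (P S)) (s : P S) (hne : D.Nonempty)
    (hD : DirectedOn (· ≤ ·) D) (hs : IsLUB D s) (hxs : x ≤ s) :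
    x ∈ closure {y : P S | y ≤ x ∧ ∃ d ∈ D, y ≤ d} := by
  rw [mem_closure_iff]
  intro U hU hx
  obtain ⟨N, t, ht, hO⟩ := nb hU hx
  obtain ⟨g1, g2, g3⟩ := good x
  have ha := S.ha
  obtain ⟨t2, h1, h2⟩ := exists_between (lt_min ht g2)
  obtain ⟨t1, h3, h4⟩ := exists_between h1
  obtain ⟨M, hM⟩ := eventually_atTop.1 (growth (s := t1) (t := t2) (by linarith) h4)
  obtain ⟨d, hd, hd1, hd2⟩ := approx_of_isLUB hne hD hs (max N M) t1 (lt_of_le_of_lt hxs.2 h3)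
  obtain ⟨q1, q2, q3⟩ := good d
  have hsub : ∀ n < max N M, x.1.1 n ∪ d.1.1 n ⊆ x.1.1 n := fun n hn =>
    Finset.union_subset (Finset.Subset.refl _) ((hd1 n hn).trans (hxs.1 n))
  have hg : Good S (fun n => x.1.1 n ∪ d.1.1 n, t2) := by
    refine ⟨by show S.a < t2; linarith, lt_of_lt_of_le h2 (min_le_right _ _), fun n => ?_⟩
    show (((x.1.1 n ∪ d.1.1 n).card : ℕ) : ℝ) ≤ t2 ^ n
    by_cases hn : n < max N M
    · have e1 : (((x.1.1 n ∪ d.1.1 n).card : ℕ) : ℝ) ≤ (x.1.1 n).card := by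
        exact_mod_cast Finset.card_le_card (hsub n hn)
      exact e1.trans ((g3 n).trans (pow_le_pow_left₀ (by linarith) h1.le n))
    · have e1 : (((x.1.1 n ∪ d.1.1 n).card : ℕ) : ℝ) ≤ (x.1.1 n).card + (d.1.1 n).card := by
        exact_mod_cast Finset.card_union_le _ _
      have e2 := hM n (by have := le_max_right N M; omega)
      have e3 : x.1.2 ^ n ≤ t1 ^ n := pow_le_pow_left₀ (by linarith) h3.le n
      have e4 : d.1.2 ^ n ≤ t1 ^ n := pow_le_pow_left₀ (by linarith) hd2.le n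
      have e5 : 0 ≤ t1 ^ n := pow_nonneg (by linarith) n
      have e6 : (0 : ℝ) ≤ n := Nat.cast_nonneg n
      have e7 := g3 n
      have e8 := q3 n
      have e9 := mul_nonneg e6 e5
      nlinarith
  obtain ⟨p, hp1, hp2, hp3⟩ := den hg N (t := t) (lt_of_lt_of_le h2 (min_le_left _ _))
  refine ⟨p, hO ⟨fun n hn => (hp2 n hn).trans (hsub n (lt_of_lt_of_le hn (le_max_left _ _))), hp3⟩,
    ⟨fun n => Finset.subset_union_left.trans (hp1.1 n), h1.le.trans hp1.2⟩, d, hd,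
    ⟨fun n => Finset.subset_union_right.trans (hp1.1 n), (hd2.le.trans h4.le).trans hp1.2⟩⟩

theorem core (x : P S) (U : Set (P S)) (hU : IsOpen U) (hx : x ∈ U) :
    ∃ V : Set (P S), IsOpen V ∧ x ∈ V ∧ V ⊆ U ∧
      ∀ 𝒲 : Set (Set (P S)), (∀ Z ∈ 𝒲, IsOpen Z) → U ⊆ ⋃₀ 𝒲 →
        ∃ 𝒯 ⊆ 𝒲, 𝒯.Finite ∧ V ⊆ ⋃₀ 𝒯 := by
  classical
  obtain ⟨N, t, ht, hO⟩ := nb hU hx
  obtain ⟨g1, g2, g3⟩ := good x
  have ha := S.ha
  obtain ⟨t', h1, h2⟩ := exists_between (lt_min ht g2)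
  have h3 : t' < t := lt_of_lt_of_le h2 (min_le_left _ _)
  refine ⟨O S x.1.1 N t', isOpen_O _ _ _, ⟨fun _ _ => Finset.Subset.refl _, h1⟩,
    fun p hp => hO ⟨hp.1, hp.2.trans h3⟩, fun 𝒲 h𝒲 hc => ?_⟩
  let _ : ∀ n, TopologicalSpace (Finset (W n × W n)) := fun _ => ⊥
  have _ : ∀ n, DiscreteTopology (Finset (W n × W n)) := fun _ => ⟨rfl⟩
  have hK : IsCompact (Set.pi univ (fun n => {B : Finset (W n × W n) |
      (B.card : ℝ) ≤ t' ^ n ∧ (n < N → B ⊆ x.1.1 n)})) :=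
    isCompact_univ_pi fun n => (Set.toFinite _).isCompact
  have hcov : ∀ B ∈ Set.pi univ (fun n => {B : Finset (W n × W n) |
      (B.card : ℝ) ≤ t' ^ n ∧ (n < N → B ⊆ x.1.1 n)}), ∃ Z ∈ 𝒲, ∃ M : ℕ, O S B M t' ⊆ Z := by
    intro B hB
    have hg : Good S (B, t') :=
      ⟨by show S.a < t'; linarith, lt_of_lt_of_le h2 (min_le_right _ _),
        fun n => (hB n (mem_univ _)).1⟩
    obtain ⟨p, hp1, hp2, hp3⟩ := den hg N (t := t) h3
    obtain ⟨Z, hZ, hpZ⟩ := hc (hO (show p ∈ O S x.1.1 N t from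
      ⟨fun n hn => (hp2 n hn).trans ((hB n (mem_univ _)).2 hn), hp3⟩))
    obtain ⟨M, u, hu, hO'⟩ := nb (h𝒲 Z hZ) hpZ
    exact ⟨Z, hZ, M, fun q hq => hO' ⟨fun n hn => (hq.1 n hn).trans (hp1.1 n),
      (hq.2.trans_le hp1.2).trans hu⟩⟩
  choose! Z hZ M hM using hcov
  obtain ⟨T, hT, hTc⟩ := hK.elim_nhds_subcover (fun B => {C : SS | ∀ n < M B, C n ⊆ B n}) (by
    intro B _
    refine IsOpen.mem_nhds ?_ (fun _ _ => Finset.Subset.refl _)
    have : {C : SS | ∀ n < M B, C n ⊆ B n} =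
        ⋂ n ∈ Finset.range (M B), (fun C : SS => C n) ⁻¹' {c | c ⊆ B n} := by
      ext C; simp
    rw [this]
    exact isOpen_biInter_finset fun n _ => (isOpen_discrete _).preimage (continuous_apply n))
  refine ⟨Z '' T, ?_, T.finite_toSet.image _, fun p hp => ?_⟩
  · rintro _ ⟨B, hB, rfl⟩
    exact hZ B (hT B hB)
  · obtain ⟨q1, q2, q3⟩ := good p
    have : p.1.1 ∈ Set.pi univ (fun n => {B : Finset (W n × W n) |
        (B.card : ℝ) ≤ t' ^ n ∧ (n < N → B ⊆ x.1.1 n)}) := fun n _ =>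
      ⟨(q3 n).trans (pow_le_pow_left₀ (by linarith) hp.2.le n), hp.1 n⟩
    obtain ⟨B, hB, hpB⟩ := mem_iUnion₂.1 (hTc this)
    exact ⟨Z B, ⟨B, hB, rfl⟩, hM B (hT B hB) ⟨hpB, hp.2⟩⟩

theorem low (N : ℕ) {t : ℝ} (ht : S.a < t) : ∃ p : P S, p ∈ O S (fun _ => ∅) N t := by
  obtain ⟨s, h1, h2⟩ := exists_between (lt_min ht S.hab)
  have ha := S.ha
  have hg : Good S (fun _ => ∅, s) := ⟨h1, lt_of_lt_of_le h2 (min_le_right _ _), fun n => by
    simpa using pow_nonneg (show 0 ≤ s by linarith) n⟩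
  obtain ⟨p, -, hp⟩ := den hg N (t := t) (lt_of_lt_of_le h2 (min_le_left _ _))
  exact ⟨p, hp⟩

theorem irred : IsIrreducible (univ : Set (P S)) := by
  refine ⟨?_, fun U V hU hV ⟨x, _, hx⟩ ⟨y, _, hy⟩ => ?_⟩
  · obtain ⟨p, -⟩ := low (S := S) 0 S.hab
    exact ⟨p, mem_univ _⟩
  · obtain ⟨N1, t1, h1, hO1⟩ := nb hU hx
    obtain ⟨N2, t2, h2, hO2⟩ := nb hV hy
    obtain ⟨p, hp1, hp2⟩ := low (S := S) (max N1 N2) (t := min t1 t2)
      (lt_min ((good x).1.trans h1) ((good y).1.trans h2))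
    exact ⟨p, mem_univ _, hO1 ⟨fun n hn => (hp1 n (lt_of_lt_of_le hn (le_max_left _ _))).trans
      (Finset.empty_subset _), lt_of_lt_of_le hp2 (min_le_left _ _)⟩,
      hO2 ⟨fun n hn => (hp1 n (lt_of_lt_of_le hn (le_max_right _ _))).trans
      (Finset.empty_subset _), lt_of_lt_of_le hp2 (min_le_right _ _)⟩⟩

theorem not_sober : ¬ QuasiSober (P S) := by
  intro h
  obtain ⟨x, hx⟩ := h.sober irred isClosed_univ
  obtain ⟨p, -, hp⟩ := low (S := S) 0 (good x).1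
  have : p ∈ closure {x} := by rw [hx.def]; exact mem_univ _
  rw [Topology.IsScott.closure_singleton] at this
  exact absurd hp (not_lt.2 (le_def.1 this).2)

end Pool.Agent.H.MP_1e3442_gt
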